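import Pool.Agent.L0h15.VZ.Main

/-!
# MP_83b46e_ag: Voisin's conjecture for surfaces whose zero-cycles come from other surfaces

`T` consists of the groups of Albanese-trivial zero-cycles on smooth projective complex surfaces, with
rational coefficients, and of their exterior products. `Vanish S n` says that the alternating sums of the
exterior products of `n` Albanese-trivial zero-cycles on `S` are zero, and `Conj S` that this holds for
all `n > p_g(S)`.
-/

set_option autoImplicit false

namespace Pool.Agent.Results.MP_83b46e_ag.Decomposition

open Pool.Agent.L0h15.VZ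

theorem result (T : Theory) :
    -- larger numbers of cycles
    (∀ S m n, m < n → T.Vanish S (m + 1) → T.Vanish S n) ∧
    (∀ S, T.Conj S ↔ T.Vanish S (T.pg S + 1)) ∧
    -- if the Albanese-trivial zero-cycles on `S` come from surfaces `S' j`, where the alternating sums
    -- of `p j + 1` cycles vanish, then those of `n` cycles vanish on `S`, for `n` larger than the sum of
    -- the numbers `p j`
    (∀ (S : T.Surf) (r : ℕ) (S' : Fin r → T.Surf) (p : Fin r → ℕ) (n : ℕ), T.Generated S S' →
      (∀ j, T.Vanish (S' j) (p j + 1)) → ∑ j, p j < n → T.Vanish S n) ∧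
    -- Voisin's conjecture for the surfaces `S' j` implies that for `S`, if the sum of their geometric
    -- genera is at most that of `S`
    (∀ (S : T.Surf) (r : ℕ) (S' : Fin r → T.Surf), T.Generated S S' →
      ∑ j, T.pg (S' j) ≤ T.pg S → (∀ j, T.Conj (S' j)) → T.Conj S) :=
  ⟨fun _ _ _ hmn h => Theory.vanish_mono h hmn,
    fun S => ⟨fun h => h _ (Nat.lt_succ_self _), fun h _ hn => Theory.vanish_mono h hn⟩,
    fun _ _ _ p _ hS h hp => Theory.vanish_of_generated hS p hp h,
    fun _ _ _ hS hp h => Theory.conj_of_generated hS hp h⟩

end Pool.Agent.Results.MP_83b46e_ag.Decomposition
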