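import Pool.Agent.L0h15.AJ.Main

/-!
# MP_e28333_ag: injectivity of Abel-Jacobi maps, reduction to codimension `i` and dimension `2 i - 2`

`T` consists of the groups of homologically trivial cycles and the intermediate Jacobians, with rational
coefficients, of the smooth proper varieties over `ℚ`, with known properties. `Inj X e` says that the
kernel of the Abel-Jacobi map is a torsion group for the cycles of dimension `e` on `X`.
-/

set_option autoImplicit false

namespace Pool.Agent.Results.MP_e28333_ag.DimensionReduction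

open Pool.Agent.L0h15.AJ
open Pool.Agent.L0h15.OL (ap)

theorem result (T : Theory) (hK : T.Known) :
    -- cycles of dimension `e` on all smooth proper varieties
    (∀ e : ℕ, (∀ X, T.Inj X e) ↔ ∀ X, T.Proj X → T.dim X = 2 * e + 2 → T.Inj X e) ∧
    -- cycles of dimension `e` on the geometrically connected smooth projective varieties
    (∀ e : ℕ, (∀ X, T.Proj X → T.Conn X → T.Inj X e) ↔
      ∀ X, T.Proj X → T.Conn X → T.dim X = 2 * e + 2 → T.Inj X e) ∧
    -- all cycles on all smooth proper varieties
    ((∀ X e, T.Inj X e) ↔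
      ∀ X e, T.Proj X → T.Conn X → T.dim X = 2 * e + 2 → T.Inj X e) ∧
    -- cycles of dimension `e` on smooth hypersurface sections of dimension `2 e + 1` whose image under
    -- the Abel-Jacobi map is in the kernel of the direct image
    (∀ e : ℕ, (∀ X, T.Inj X e) ↔ ∀ Y X (s : T.Sect Y X e), T.Proj X → T.dim X = 2 * e + 2 →
      ∀ z, ap s.f' (ap (T.aj Y e) z) = 0 → ap s.f z = 0) := by
  refine ⟨fun e => ⟨fun h X _ _ => h X, fun h => Theory.inj_all hK e h⟩,
    fun e => ⟨fun h X h1 h2 _ => h X h1 h2, fun h => Theory.inj_conn hK e h⟩,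
    ⟨fun h X e _ _ _ => h X e, fun h => Theory.inj_weil hK fun X e =>
      Theory.inj_conn hK e (fun X h1 h2 h3 => h X e h1 h2 h3) X⟩,
    fun e => ⟨fun h Y X s _ _ z hz => ?_, fun h => Theory.inj_all hK e fun X hX hdim z hz => ?_⟩⟩
  · refine h X _ ?_
    rw [s.compat]
    exact hz
  · obtain ⟨Y, s, z', rfl⟩ := hK.bertini X e hX (by omega) z
    refine h Y X s hX hdim z' ?_
    rw [← s.compat]
    exact hz

end Pool.Agent.Results.MP_e28333_ag.DimensionReduction
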