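import Pool.Agent.L0h15.CM.Main

/-!
# MP_6c4da4_ag: consequences of the abelianness of the category of Chow motives

`D` is the category of Chow motives over a field, with rational coefficients, as an additive rigid
braided category in which the endomorphisms of the unit form a field.
-/

set_option autoImplicit false

namespace Pool.Agent.Results.MP_6c4da4_ag.KunnethInjectivity

open Pool.Agent.L0h15.CM CategoryTheory

theorem result (D : Motives) :
    -- if the category is abelian, then nonzero cycles are monomorphisms
    (IsAb D.C → ∀ (X : D.Var) (i : ℤ) (a : D.CH X i), a ≠ 0 →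
      ∀ (Z : D.C) (f : Z ⟶ MonoidalCategory.tensorUnit D.C), f ≫ a = (0 : Z ⟶ D.h X i) → f = 0) ∧
    -- the exterior product is injective on the tensor product of Chow groups
    (IsAb D.C → ∀ (X Y : D.Var) (i j : ℤ) (n : ℕ) (a : Fin n → D.CH X i) (b : Fin n → D.CH Y j),
      D.Indep a → ∑ k, D.ext (a k) (b k) = 0 → ∀ k, b k = 0) ∧
    -- smash-nilpotent cycles are zero
    (IsAb D.C → ∀ (X : D.Var) (i : ℤ) (a : D.CH X i), D.SmashNilp a → a = 0) ∧
    -- if numerically trivial cycles are smash-nilpotent (Voevodsky's conjecture), and with the theorem of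
    -- Jannsen that the category is abelian if rational and numerical equivalence coincide, the category
    -- is abelian if and only if rational and numerical equivalence coincide
    ((∀ (X : D.Var) (i : ℤ) (a : D.CH X i), D.NumTriv a → D.SmashNilp a) →
      ((∀ (X : D.Var) (i : ℤ) (a : D.CH X i), D.NumTriv a → a = 0) → IsAb D.C) →
      (IsAb D.C ↔ ∀ (X : D.Var) (i : ℤ) (a : D.CH X i), D.NumTriv a → a = 0)) := by
  have hs : IsAb D.C → ∀ (X : D.Var) (i : ℤ) (a : D.CH X i), D.SmashNilp a → a = 0 := by
    intro h X i a ⟨n, hn⟩
    by_contra ha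
    exact Motives.smash_ne_zero h a ha n hn
  refine ⟨fun h X i a ha Z f hf => ?_, fun h X Y i j n a b ha hab => Motives.ext_inj h a b ha hab, hs,
    fun hV hJ => ⟨fun h X i a ha => hs h X i a (hV X i a ha), hJ⟩⟩
  let := Motives.abelian h
  have h1 : Mono (show MonoidalCategory.tensorUnit D.C ⟶ D.h X i from a) :=
    mono_of_ne_zero (C := D.C) D.unit a ha
  exact (cancel_mono (show MonoidalCategory.tensorUnit D.C ⟶ D.h X i from a)).1
    (hf.trans Limits.zero_comp.symm)

end Pool.Agent.Results.MP_6c4da4_ag.KunnethInjectivity
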