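import Pool.Agent.L0h15.HS.Conv

/-!
# MP_c0b458_ag: reduction of the numerical Hodge standard conjecture to the middle codimension

`D` consists of the rings of cycles modulo numerical equivalence, with rational coefficients, of the
abelian varieties over a field. `Conj A L n` says that the form `(-1)^n a b L^{g - 2 n}` is positive
definite on the primitive classes of codimension `n` for the polarization `L` of `A`, where `g` is the
dimension of `A`.
-/

set_option autoImplicit false

namespace Pool.Agent.Results.MP_c0b458_ag.MiddleCodimension

open Pool.Agent.L0h15.HS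

theorem result (D : Cycles) (hR : D.Rings) (hP : D.Products) :
    -- the conjecture for `A` and the codimension `n` follows from that for `A × B`, with a product
    -- polarization, and the middle codimension, if `B` is of dimension `dim A - 2 n`
    (∀ A B (L : D.Z A) (M : D.Z B) (n : ℕ), D.Pol A L → D.Pol B M → D.dim A = 2 * n + D.dim B →
      D.Conj (D.prod A B) (add (D.p1 A B L) (D.p2 A B M)) (n + D.dim B) → D.Conj A L n) ∧
    -- it is enough to consider the middle codimension
    ((∀ A (L : D.Z A) (n : ℕ), D.Pol A L → 2 * n ≤ D.dim A → D.Conj A L n) ↔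
      ∀ A (L : D.Z A) (n : ℕ), D.Pol A L → D.dim A = 2 * n → D.Conj A L n) ∧
    -- it is enough to show that the square is positive for nonzero primitive classes of the middle
    -- codimension, in dimensions divisible by four
    ((∀ A (L : D.Z A) (n : ℕ), D.Pol A L → 2 * n ≤ D.dim A → D.Conj A L n) ↔
      ∀ A (L : D.Z A) (m : ℕ), D.Pol A L → D.dim A = 4 * m → ∀ a : D.Z A, D.Cod A (2 * m) a →
        IsZero (mul a L) → ¬ IsZero a → 0 < D.deg A (mul a a)) := by
  let T := Cycles.toTheory hR hP
  simp only [Cycles.conj_iff hR hP]
  refine ⟨fun A B L M n hL hM hk h => Theory.conj_of_prod (T := T) hL hM hk rfl h,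
    ⟨fun h A L n hL hn => h A L n hL hn.ge, fun h => Theory.conj_of_middle (T := T) h⟩,
    ⟨fun h A L m hL hm => ?_, fun h => Theory.conj_of_four (T := T) h⟩⟩
  exact (Theory.conj_iff_four (T := T) hm).1 (h A L (2 * m) hL (by omega))

end Pool.Agent.Results.MP_c0b458_ag.MiddleCodimension
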