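import Pool.Agent.L0h15.VN.Main

/-!
# MP_bf8edd_ag: reduction of Voevodsky's conjecture to `e`-dimensional cycles on varieties of
dimension `2 e + 1`

`T` consists of the Chow groups (with rational coefficients) of the smooth projective complex varieties,
with known properties. `Conj X e` says that the homologically trivial cycles of dimension `e` on `X` are
smash-nilpotent.
-/

set_option autoImplicit false

namespace Pool.Agent.Results.MP_bf8edd_ag.MiddleDimension

open Pool.Agent.L0h15.VN
open Pool.Agent.L0h15.OL (Sp Lin ap inn)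

theorem result (T : Theory) (hK : T.Known) :
    -- cycles of dimension `e`, for one class of varieties which dominates those of dimension `2 e + 1`
    (∀ (e : ℕ) (S : Set T.Var), (∀ X, T.dim X = 2 * e + 1 → T.Dominates S X) →
      (∀ X, X ∈ S → T.dim X = 2 * e + 1 → T.Conj X e) → ∀ X, T.Conj X e) ∧
    -- the whole conjecture
    ((∀ X e, T.Conj X e) ↔ ∀ X e, T.dim X = 2 * e + 1 → T.Conj X e) ∧
    -- cycles of dimension `e` on smooth hypersurface sections of dimension `2 e`, whose class is in the
    -- kernel of the direct image (a vanishing class)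
    (∀ e : ℕ, (∀ X, T.Conj X e) ↔ ∀ Y X (s : T.Sect Y X), T.dim X = 2 * e + 1 → ∀ c, T.IsDim Y e c →
      T.IsDim X e (ap (T.inc s) c) → inn (T.hom X) (ap (T.inc s) c) → T.Nilp X (ap (T.inc s) c)) := by
  refine ⟨fun e S hS h => Theory.conj_all hK e fun X hX => ?_, ⟨fun h X e _ => h X e, fun h X e =>
    Theory.conj_all hK e (fun X hX => h X e hX) X⟩, fun e => ⟨fun h Y X s _ c _ h2 h3 => h X _ h3 h2,
    fun h => Theory.conj_all hK e fun X hX c hc hi => ?_⟩⟩
  · obtain ⟨Y, hY, hdim, hr⟩ := hS X hX
    exact Theory.conj_retract (k := 0) hK (by exact_mod_cast hr) (by simpa using hdim)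
      (h Y hY (by rw [hdim, hX]))
  · obtain ⟨Y, s, c', hc', hinc⟩ := hK.bertini X e (by omega) c hi
    have h1 := h Y X s hX c' hc' (by rw [hinc]; exact hi) (by rw [hinc]; exact hc)
    rwa [hinc] at h1

end Pool.Agent.Results.MP_bf8edd_ag.MiddleDimension
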