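import Pool.Agent.L0h15.QP.Middle

/-!
# MP_537ea0_ag: from smooth projective to smooth quasi-projective varieties

`T` consists of the Chow groups, Betti cohomology groups and intermediate Jacobians, with rational
coefficients, of the smooth quasi-projective varieties over the field of algebraic numbers. `Inj V k`
says that the Abel-Jacobi map is injective on the homologically trivial classes of codimension `k`.
-/

set_option autoImplicit false

namespace Pool.Agent.Results.MP_537ea0_ag.QuasiProjective

open Pool.Agent.L0h15.QP

theorem result (T : Theory) :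
    -- for a smooth compactification `X` of `V`, with an adjoint of the direct image from the boundary
    -- which is given by a correspondence, and algebraic Hodge classes on the boundary
    (∀ X V D k (C : T.Compact X V D k), Nonempty C.Adjoint → T.Hodge D (k - 1) → T.Inj X k →
      T.Inj V k) ∧
    (T.Known →
      -- codimension `2`
      ((∀ V, T.Inj V 2) ↔ ∀ X, T.Proj X → T.Inj X 2) ∧
      -- zero-cycles
      ((∀ V, T.Inj V (T.dim V)) ↔ ∀ X, T.Proj X → T.dim X = 2 → T.Inj X 2) ∧
      -- the cycles of dimension `e` on projective varieties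
      (∀ e : ℕ, (∀ X, T.Proj X → T.Inj X (T.dim X - e)) ↔
        ∀ X, T.Proj X → T.dim X = 2 * e + 2 → T.Inj X (e + 2)) ∧
      -- all codimensions, if the Hodge conjecture holds for the boundaries and their embeddings
      ((∀ V k, ¬ T.Proj V → T.Good V k) → ((∀ V k, T.Inj V k) ↔
        ∀ (e : ℕ) X, T.Proj X → T.dim X = 2 * e + 2 → T.Inj X (e + 2)))) := by
  refine ⟨fun X V D k C ⟨A⟩ hD hX => Theory.inj_open C A hD hX, fun hK => ⟨⟨fun h X _ => h X,
    fun h V => ?_⟩, ⟨fun h X _ hdim => ?_, fun h V => ?_⟩, fun e => ⟨fun h X hX hdim => ?_,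
    fun h => Theory.inj_proj hK e h⟩, fun hG => ⟨fun h e X _ _ => h X _, fun h V k => ?_⟩⟩⟩
  · by_cases hV : T.Proj V
    · exact h V hV
    · exact Theory.inj_good (hK.good V 2 hV (Or.inl rfl)) fun X hX _ => h X hX
  · have h1 := h X
    rw [hdim] at h1
    exact h1
  · have h0 : ∀ X, T.Proj X → T.Inj X (T.dim X) := by
      intro X hX
      have h1 := Theory.inj_proj hK 0 (fun Y hY hdim => by
        have h2 := h Y hY (by omega)
        simpa using h2) X hX
      simpa using h1
    by_cases hV : T.Proj V
    · exact h0 V hV
    · refine Theory.inj_good (hK.good V _ hV (Or.inr rfl)) fun X hX hdim => ?_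
      have h1 := h0 X hX
      rwa [hdim] at h1
  · have h1 := h X hX
    have h2 : ((T.dim X : ℤ) - e) = e + 2 := by rw [hdim]; push_cast; ring
    rwa [h2] at h1
  · by_cases hV : T.Proj V
    · exact Theory.inj_proj_all hK h V hV k
    · exact Theory.inj_good (hG V k hV) fun X hX _ => Theory.inj_proj_all hK h X hX k

end Pool.Agent.Results.MP_537ea0_ag.QuasiProjective
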