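import Pool.Agent.L0h15.OP.Main

/-!
# MP_db07cb_ag: simultaneous ordinary primes

`T` consists of the Newton polygons and Hodge-Tate polygons of the intersection cohomology groups of
projective varieties over number fields, with known properties. `Question X n` says that there are
infinitely many ordinary maximal ideals for the cohomology group of degree `n` of `X`, and
`Simultaneous F X n` says that for a finite number of varieties `X i` over number fields `F i`, and
degrees `n i`, there are infinitely many prime numbers such that all maximal ideals above them are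
ordinary for all these groups.
-/

set_option autoImplicit false

namespace Pool.Agent.Results.MP_db07cb_ag.Simultaneous

open Pool.Agent.L0h15.OP

theorem result (T : Theory) (hK : T.Known) :
    -- it is enough to consider smooth projective varieties over the rational numbers
    ((∀ F (X : T.Var F) n, T.Question X n) ↔
      ∀ (X : T.Var T.rat) n, T.Smooth X → T.hodge X n ≠ 0 → T.Question X n) ∧
    -- the question is equivalent to its simultaneous version
    ((∀ F (X : T.Var F) n, T.Question X n) ↔
      ∀ (r : ℕ) (F : Fin r → T.Fld) (X : ∀ i, T.Var (F i)) n, T.Simultaneous F X n) ∧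
    -- the same for other notions of large sets of prime numbers, such as sets of positive density or of
    -- density one
    (∀ 𝓛 : Set (Set (T.Place T.rat)), (∀ A B, A ∈ 𝓛 → A ⊆ B → B ∈ 𝓛) →
      (∀ A B, A ∈ 𝓛 → B.Finite → A \ B ∈ 𝓛) →
      (∀ (X : T.Var T.rat) n, T.Smooth X → T.hodge X n ≠ 0 → {p | T.Ord X n p} ∈ 𝓛) →
      ∀ (r : ℕ) (F : Fin r → T.Fld) (X : ∀ i, T.Var (F i)) (n : Fin r → ℤ),
        {p : T.Place T.rat | ∀ i (v : T.Place (F i)), T.char v = T.char p →
          T.Ord (X i) (n i) v} ∈ 𝓛) ∧
    -- an ordinary prime for a product is, up to finitely many exceptions, ordinary for the factors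
    (∀ X Y n m, T.Smooth X → T.Smooth Y → T.hodge X n ≠ 0 → T.hodge Y m ≠ 0 →
      T.Almost fun p => T.Ord (T.prod X Y) (n + m) p → T.Ord X n p ∧ T.Ord Y m p) := by
  refine ⟨⟨fun h X n _ _ => h _ X n, fun h F X n => ?_⟩, ⟨fun h r F X n => ?_, fun h F X n => ?_⟩,
    fun 𝓛 h1 h2 h r F X n => Theory.simultaneous_large hK 𝓛 h1 h2 h F X n,
    fun X Y n m hX hY h0 h0' => ?_⟩
  · exact Theory.question_of_simultaneous hK X n (Theory.simultaneous hK h _ _ _)
  · exact Theory.simultaneous hK (fun X n _ _ => h _ X n) F X n
  · exact Theory.question_of_simultaneous hK X n (h 1 _ _ _)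
  · obtain ⟨R, RH, hh, hA⟩ := hK.kunneth X Y n m hX hY
    refine (hA.and ((hK.above X n hX).and (hK.above Y m hY))).mono ?_
    rintro p ⟨⟨h2, h3⟩, h4, h5⟩ hord
    exact Theory.ord_of_pairs h4 h5 h3 h0 h0' (by rw [← h2, ← hh]; exact hord)

end Pool.Agent.Results.MP_db07cb_ag.Simultaneous
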